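import Pool.Agent.K1H25.HF.Stm

/-!
MP_da1489_an: the downward induction over the levels.
-/

namespace K1H26.HF

open K1H25.HF

section seminorm

variable {A : Type} [Ring A] [Algebra ℂ A] {p : A → ℝ}

theorem p_zero (hs : ∀ (z : ℂ) a, p (z • a) = ‖z‖ * p a) : p 0 = 0 := by
  have := hs 0 0
  rw [zero_smul, norm_zero, zero_mul] at this
  exact this

theorem p_neg (hs : ∀ (z : ℂ) a, p (z • a) = ‖z‖ * p a) (a : A) : p (-a) = p a := by
  have := hs (-1) a
  rw [norm_neg, norm_one, one_mul, neg_smul, one_smul] at this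
  exact this

theorem p_sum (hadd : ∀ a b, p (a + b) ≤ p a + p b) (hs : ∀ (z : ℂ) a, p (z • a) = ‖z‖ * p a)
    {ι : Type} (s : Finset ι) (f : ι → A) : p (∑ i ∈ s, f i) ≤ ∑ i ∈ s, p (f i) := by
  classical
  induction s using Finset.induction_on with
  | empty => rw [Finset.sum_empty, Finset.sum_empty, p_zero hs]
  | insert a s ha ih =>
    rw [Finset.sum_insert ha, Finset.sum_insert ha]
    exact (hadd _ _).trans (add_le_add_right ih _)

theorem p_isolate (hadd : ∀ a b, p (a + b) ≤ p a + p b) (hs : ∀ (z : ℂ) a, p (z • a) = ‖z‖ * p a)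
    {ι : Type} [DecidableEq ι] (s : Finset ι) (f : ι → A) (i : ι) (hi : i ∈ s) :
    p (f i) ≤ p (∑ j ∈ s, f j) + ∑ j ∈ s.erase i, p (f j) := by
  have h : f i = (∑ j ∈ s, f j) + -(∑ j ∈ s.erase i, f j) := by
    rw [← Finset.add_sum_erase s f hi]; abel
  calc p (f i) = p ((∑ j ∈ s, f j) + -(∑ j ∈ s.erase i, f j)) := by rw [← h]
    _ ≤ p (∑ j ∈ s, f j) + p (-(∑ j ∈ s.erase i, f j)) := hadd _ _
    _ ≤ _ := by rw [p_neg hs]; exact add_le_add_right (p_sum hadd hs _ _) _

end seminorm

theorem gam_pos (j : ℕ) : 0 < gam j := by unfold gam; positivity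

theorem gam_step {m j : ℕ} (h : m + 2 ≤ j) : 4 * gam j ≤ gam (m + 1) := by
  unfold gam
  obtain ⟨d, rfl⟩ := Nat.exists_eq_add_of_le h
  have e : m + 2 + d + 1 = (m + 1 + 1) + 1 + d := by ring
  rw [e, pow_add, pow_add]
  have h1 : ((1 : ℝ) / 4) ^ d ≤ 1 := pow_le_one₀ (by norm_num) (by norm_num)
  have h2 : (0 : ℝ) < (1 / 4) ^ (m + 1 + 1) := by positivity
  calc 4 * ((1 / 4 : ℝ) ^ (m + 1 + 1) * (1 / 4) ^ 1 * (1 / 4) ^ d)
      = (1 / 4 : ℝ) ^ (m + 1 + 1) * (1 / 4) ^ d := by ring
    _ ≤ (1 / 4 : ℝ) ^ (m + 1 + 1) * 1 := mul_le_mul_of_nonneg_left h1 h2.le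
    _ = _ := mul_one _

theorem gam_TT (n m : ℕ) : 656 * (n : ℝ) ^ 2 ≤ gam m * ((TT n m : ℕ) : ℝ) ^ 2 := by
  unfold gam TT
  push_cast
  have : (1 / 4 : ℝ) ^ (m + 1) * (26 * (n : ℝ) * 2 ^ (m + 1)) ^ 2 = 676 * (n : ℝ) ^ 2 := by
    have h : (1 / 4 : ℝ) ^ (m + 1) * ((2 : ℝ) ^ (m + 1)) ^ 2 = 1 := by
      rw [← pow_mul, mul_comm (m + 1) 2, pow_mul, ← mul_pow]; norm_num
    calc (1 / 4 : ℝ) ^ (m + 1) * (26 * (n : ℝ) * 2 ^ (m + 1)) ^ 2
        = 676 * (n : ℝ) ^ 2 * ((1 / 4 : ℝ) ^ (m + 1) * ((2 : ℝ) ^ (m + 1)) ^ 2) := by ring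
      _ = _ := by rw [h, mul_one]
  rw [this]
  have : (0 : ℝ) ≤ (n : ℝ) ^ 2 := sq_nonneg _
  linarith

theorem four_le_TT (n m : ℕ) : 4 * n ≤ TT n m := by
  unfold TT
  have : 1 ≤ 2 ^ (m + 1) := Nat.one_le_two_pow
  nlinarith [Nat.zero_le n]

theorem one_le_Qr {n : ℕ} (hn : 1 ≤ n) {r : ℝ} (hr : 0 < r) (m : ℕ) : 1 ≤ Qr n r m := by
  unfold Qr
  have h1 : (1 : ℝ) ≤ (m : ℝ) + 1 := by have : (0 : ℝ) ≤ m := Nat.cast_nonneg _; linarith
  have h2 : (1 : ℝ) ≤ (n : ℝ) := by exact_mod_cast hn
  have h3 : (1 : ℝ) ≤ 1 + 1 / r := by have : 0 < 1 / r := by positivity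
                                      linarith
  exact one_le_mul_of_one_le_of_one_le (one_le_mul_of_one_le_of_one_le h1 h2) h3

theorem Cc_nonneg {n : ℕ} (hn : 1 ≤ n) {r : ℝ} (hr : 0 < r) (M : ℕ → ℕ) (m : ℕ) : 0 ≤ Cc n r M m := by
  unfold Cc
  exact pow_nonneg (mul_nonneg (zero_le_one.trans (one_le_Qr hn hr m)) (Real.exp_pos _).le) _

theorem card_Net (n T : ℕ) : ((Net n T).card : ℝ) ≤ ((T : ℝ) + 1) ^ n := by
  unfold Net
  have h : ((Fintype.piFinset fun _ : Fin n => Finset.range (T + 1)).filter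
      fun b => (T - n) ^ 2 ≤ K1H25.HF.sq b ∧ K1H25.HF.sq b ≤ T ^ 2).card ≤ (T + 1) ^ n := by
    refine (Finset.card_filter_le _ _).trans ?_
    rw [Fintype.card_piFinset]
    simp
  calc (_ : ℝ) ≤ (((T + 1) ^ n : ℕ) : ℝ) := by exact_mod_cast h
    _ = _ := by push_cast; ring

open Classical in
/-- bound for a sum over the net points of one colour -/
theorem p_uu {A : Type} [Ring A] [Algebra ℂ A] {p : A → ℝ} (hadd : ∀ a b, p (a + b) ≤ p a + p b)
    (hs : ∀ (z : ℂ) a, p (z • a) = ‖z‖ * p a) {n : ℕ} (e : MI n → A) (M : ℕ → ℕ) (j : ℕ) (c : MI n) (K : ℝ)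
    (hK : 0 ≤ K) (h : ∀ b ∈ Net n (TT n j), p (e (lv (M j) b)) ≤ K) :
    p (uu e M j c) ≤ ((TT n j : ℝ) + 1) ^ n * K := by
  unfold uu
  refine (p_sum hadd hs _ _).trans ?_
  refine (Finset.sum_le_card_nsmul _ _ K fun b hb => h b (Finset.mem_filter.1 hb).1).trans ?_
  rw [nsmul_eq_mul]
  refine mul_le_mul_of_nonneg_right ?_ hK
  refine le_trans ?_ (card_Net n (TT n j))
  exact_mod_cast Finset.card_filter_le _ _

theorem kap_nonneg (h2 : S_KB) {n : ℕ} (hn : 1 ≤ n) (j l : MI n) : 0 ≤ kap j l := by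
  unfold kap
  have h := (h2 n hn).1
  exact div_nonneg (h _).le (mul_nonneg (h _).le (h _).le)

theorem sum_two_pow (J m : ℕ) (s : Finset ℕ) (hs : ∀ j ∈ s, m + 2 ≤ j ∧ j ≤ J) :
    ∑ j ∈ s, ((1 : ℝ) / 2) ^ j ≤ 1 := by
  have h1 : ∑ j ∈ s, ((1 : ℝ) / 2) ^ j ≤ ∑ j ∈ (Finset.range (J + 1)).image (fun i => i + 2), ((1 : ℝ) / 2) ^ j := by
    refine Finset.sum_le_sum_of_subset_of_nonneg ?_ fun _ _ _ => by positivity
    intro j hj
    rw [Finset.mem_image]
    have := hs j hj
    exact ⟨j - 2, Finset.mem_range.2 (by omega), by omega⟩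
  refine h1.trans ?_
  rw [Finset.sum_image (by intro a _ b _ h; exact Nat.add_right_cancel h)]
  have h2 : ∀ K : ℕ, ∑ i ∈ Finset.range K, ((1 : ℝ) / 2) ^ (i + 2) ≤ 1 / 2 - (1 / 2) ^ (K + 1) := by
    intro K
    induction K with
    | zero => norm_num
    | succ K ih =>
      rw [Finset.sum_range_succ]
      have : ((1 : ℝ) / 2) ^ (K + 1) = 2 * (1 / 2) ^ (K + 2) := by rw [pow_succ _ (K + 1)]; ring
      have h3 : ((1 : ℝ) / 2) ^ (K + 1 + 1) = (1 / 2) ^ (K + 2) := rfl
      rw [h3]
      linarith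
  have := h2 (J + 1)
  have h3 : (0 : ℝ) < (1 / 2) ^ (J + 1 + 1) := by positivity
  linarith

open Classical in
theorem t_CLAIM (h1 : S_DECAY) (h2 : S_KB) (h3 : S_LV) : S_CLAIM := by
  intro n r M J A _ _ e β p hn hr hβ hmul hp0 hpadd hpmul hps hpmono hpe hff hB
  -- one step
  have step : ∀ m ≤ J, (m < J → ∀ k, p (m + 1) (e k) ≤ Cc n r M (m + 1) * Real.exp (-(3 / 4) * gam (m + 1) * tot k)) →
      ∀ k, p m (e k) ≤ Cc n r M m * Real.exp (-(3 / 4) * gam m * tot k) := by
    intro m hm IH
    obtain ⟨B, hH, hG⟩ := hB m hm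
    obtain ⟨hdvd, hM0, hG1, hG2, hG3, hG4⟩ := hG
    have hQ1 : 1 ≤ Qr n r m := one_le_Qr hn hr m
    -- the bound for the level sums
    have hu : ∀ c : MI n, (∀ i, c i < 14 * n) → p m (uu e M m c) ≤ Real.exp (-(7 / 8) * gam m * (M m : ℝ)) := by
      intro c hc
      have hP : m % 2 < 2 := Nat.mod_lt _ (by norm_num)
      have hF := hff m (m % 2) hP c hc
      unfold ff at hF
      have hmem : m ∈ (Finset.range (J + 1)).filter (fun j => j % 2 = m % 2) :=
        Finset.mem_filter.2 ⟨Finset.mem_range.2 (by omega), rfl⟩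
      have hiso := p_isolate (hpadd m) (hps m) ((Finset.range (J + 1)).filter (fun j => j % 2 = m % 2))
        (fun j => (Aa M j : ℂ) • uu e M j c) m hmem
      have hA0 : ∀ j, 0 < Aa M j := fun j => Real.exp_pos _
      have hAn : ∀ j, ‖(Aa M j : ℂ)‖ = Aa M j := fun j => by
        rw [Complex.norm_real, Real.norm_eq_abs, abs_of_pos (hA0 j)]
      simp only [hps, hAn] at hiso
      -- split the remaining sum
      have hsplit : ∑ j ∈ ((Finset.range (J + 1)).filter (fun j => j % 2 = m % 2)).erase m,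
            Aa M j * p m (uu e M j c)
          ≤ (∑ i ∈ Finset.range m, Aa M i * ((TT n i : ℝ) + 1) ^ n * (Qr n r m) ^ (M i)) + 1 := by
        have hsub : ((Finset.range (J + 1)).filter (fun j => j % 2 = m % 2)).erase m
            = ((((Finset.range (J + 1)).filter (fun j => j % 2 = m % 2)).erase m).filter (fun j => j < m))
              ∪ ((((Finset.range (J + 1)).filter (fun j => j % 2 = m % 2)).erase m).filter (fun j => ¬ j < m)) :=
          (Finset.filter_union_filter_not_eq _ _).symm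
        rw [← Finset.sum_filter_add_sum_filter_not _ (fun j => j < m)]
        refine add_le_add ?_ ?_
        · -- lower levels
          calc ∑ j ∈ (((Finset.range (J + 1)).filter (fun j => j % 2 = m % 2)).erase m).filter (fun j => j < m),
                Aa M j * p m (uu e M j c)
              ≤ ∑ j ∈ (((Finset.range (J + 1)).filter (fun j => j % 2 = m % 2)).erase m).filter (fun j => j < m),
                Aa M j * ((TT n j : ℝ) + 1) ^ n * (Qr n r m) ^ (M j) := by
                refine Finset.sum_le_sum fun j hj => ?_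
                rw [Finset.mem_filter, Finset.mem_erase, Finset.mem_filter, Finset.mem_range] at hj
                obtain ⟨Bj, hHj, hGj⟩ := hB j (by omega)
                rw [mul_assoc]
                refine mul_le_mul_of_nonneg_left ?_ (hA0 j).le
                refine p_uu (hpadd m) (hps m) e M j c _ (by positivity) fun b hb => ?_
                have := (h3 n (TT n j) (M j) b hn (four_le_TT n j) hGj.1 hb).1
                have h4 := hpe m (lv (M j) b)
                rw [this] at h4
                exact h4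
            _ ≤ _ := by
                refine Finset.sum_le_sum_of_subset_of_nonneg ?_ fun j _ _ => ?_
                · intro j hj
                  rw [Finset.mem_filter] at hj
                  exact Finset.mem_range.2 hj.2
                · have : 0 ≤ Qr n r m := zero_le_one.trans hQ1
                  have := hA0 j
                  positivity
        · -- higher levels
          refine le_trans (Finset.sum_le_sum (g := fun j => ((1 : ℝ) / 2) ^ j) fun j hj => ?_)
            (sum_two_pow J m _ fun j hj => ?_)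
          · rw [Finset.mem_filter, Finset.mem_erase, Finset.mem_filter, Finset.mem_range] at hj
            have hj2 : m + 2 ≤ j := by omega
            have hjJ : j ≤ J := by omega
            obtain ⟨Bj, hHj, hGj⟩ := hB j hjJ
            obtain ⟨gd, gM0, g1, g2, g3, g4⟩ := hGj
            have hC0 : 0 ≤ Cc n r M (m + 1) := Cc_nonneg hn hr M (m + 1)
            have hKb : p m (uu e M j c) ≤ ((TT n j : ℝ) + 1) ^ n
                * (Cc n r M (m + 1) * Real.exp (-(3 / 4) * gam (m + 1) * (M j : ℝ))) := by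
              refine p_uu (hpadd m) (hps m) e M j c _ (mul_nonneg hC0 (Real.exp_pos _).le) fun b hb => ?_
              have ht := (h3 n (TT n j) (M j) b hn (four_le_TT n j) gd hb).1
              have h4 := IH (by omega) (lv (M j) b)
              rw [ht] at h4
              exact (hpmono m _).trans h4
            have hexp : Aa M j * Real.exp (-(3 / 4) * gam (m + 1) * (M j : ℝ))
                ≤ Real.exp (-(gam j * (M j : ℝ) / 2)) := by
              unfold Aa
              rw [← Real.exp_add]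
              apply Real.exp_le_exp.2
              have hg := gam_step hj2
              have hg0 := gam_pos j
              have hMj : (0 : ℝ) ≤ (M j : ℝ) := Nat.cast_nonneg _
              nlinarith [mul_le_mul_of_nonneg_right hg hMj, mul_nonneg hg0.le hMj]
            have h2j := hHj.2 (m + 1) (by omega)
            have hT0 : (0 : ℝ) ≤ ((TT n j : ℝ) + 1) ^ n := by positivity
            have h3M : (1 : ℝ) ≤ (3 * ((M j : ℝ) + 1)) ^ n := by
              apply one_le_pow₀
              have : (0 : ℝ) ≤ (M j : ℝ) := Nat.cast_nonneg _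
              linarith
            have hBj0 : 0 ≤ Bj := le_trans (by positivity) h2j
            have hCB : Cc n r M (m + 1) ≤ ((1 : ℝ) / 2) ^ j * Bj := by
              have h5 : ((1 : ℝ) / 2) ^ j * (2 ^ j * Cc n r M (m + 1)) ≤ ((1 : ℝ) / 2) ^ j * Bj :=
                mul_le_mul_of_nonneg_left h2j (by positivity)
              have h6 : ((1 : ℝ) / 2) ^ j * (2 ^ j * Cc n r M (m + 1)) = Cc n r M (m + 1) := by
                rw [← mul_assoc, ← mul_pow]; norm_num
              rw [h6] at h5; exact h5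
            calc Aa M j * p m (uu e M j c)
                ≤ Aa M j * (((TT n j : ℝ) + 1) ^ n
                  * (Cc n r M (m + 1) * Real.exp (-(3 / 4) * gam (m + 1) * (M j : ℝ)))) :=
                  mul_le_mul_of_nonneg_left hKb (hA0 j).le
              _ = (((TT n j : ℝ) + 1) ^ n * Cc n r M (m + 1))
                  * (Aa M j * Real.exp (-(3 / 4) * gam (m + 1) * (M j : ℝ))) := by ring
              _ ≤ (((TT n j : ℝ) + 1) ^ n * Cc n r M (m + 1)) * Real.exp (-(gam j * (M j : ℝ) / 2)) :=
                  mul_le_mul_of_nonneg_left hexp (mul_nonneg hT0 hC0)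
              _ ≤ (((TT n j : ℝ) + 1) ^ n * (((1 : ℝ) / 2) ^ j * Bj)) * Real.exp (-(gam j * (M j : ℝ) / 2)) := by
                  gcongr
              _ = ((1 : ℝ) / 2) ^ j * (((TT n j : ℝ) + 1) ^ n * 1 * Bj * Real.exp (-(gam j * (M j : ℝ) / 2))) := by
                  ring
              _ ≤ ((1 : ℝ) / 2) ^ j * (((TT n j : ℝ) + 1) ^ n * (3 * ((M j : ℝ) + 1)) ^ n * Bj
                    * Real.exp (-(gam j * (M j : ℝ) / 2))) := by
                  gcongr
              _ ≤ ((1 : ℝ) / 2) ^ j * 1 := mul_le_mul_of_nonneg_left g4 (by positivity)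
              _ = _ := mul_one _
          · rw [Finset.mem_filter, Finset.mem_erase, Finset.mem_filter, Finset.mem_range] at hj
            omega
      have htot : Aa M m * p m (uu e M m c) ≤ Real.exp (gam m * (M m : ℝ) / 8) := by
        have h4 := hH.1
        calc Aa M m * p m (uu e M m c) ≤ _ := hiso
          _ ≤ ((m : ℝ) + 1) + ((∑ i ∈ Finset.range m, Aa M i * ((TT n i : ℝ) + 1) ^ n * (Qr n r m) ^ (M i)) + 1) :=
              add_le_add hF hsplit
          _ ≤ B := by linarith
          _ ≤ _ := hG3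
      have : p m (uu e M m c) ≤ (Aa M m)⁻¹ * Real.exp (gam m * (M m : ℝ) / 8) := by
        rw [← div_eq_inv_mul, le_div_iff₀ (hA0 m), mul_comm]
        exact htot
      refine this.trans (le_of_eq ?_)
      unfold Aa
      rw [← Real.exp_neg, ← Real.exp_add]
      congr 1; ring
    -- apply the decay lemma
    have := h1 n (TT n m) (M m) (gam m) (Real.exp (-(7 / 8) * gam m * (M m : ℝ))) (Qr n r m)
      (fun k => p m (e k)) hn (four_le_TT n m) (gam_pos m) (gam_TT n m) hdvd hM0 hG1 hG2 hQ1
      (fun k => hp0 m _) (fun k => hpe m k) (Real.exp_pos _).le le_rfl ?_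
    · exact this
    intro j b hb
    have hn0 : 0 < 14 * n := by omega
    set c : MI n := fun i => b i % (14 * n) with hcdef
    have hc : ∀ i, c i < 14 * n := fun i => Nat.mod_lt _ hn0
    have huc := hu c hc
    have hbmem : b ∈ (Net n (TT n m)).filter (fun b' => ∀ i, b' i % (14 * n) = c i) :=
      Finset.mem_filter.2 ⟨hb, fun i => rfl⟩
    have hiso := p_isolate (hpadd m) (hps m) ((Net n (TT n m)).filter (fun b' => ∀ i, b' i % (14 * n) = c i))
      (fun b' => e j * e (lv (M m) b')) b hbmem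
    have hterm : ∀ b' : MI n, p m (e j * e (lv (M m) b')) = kap j (lv (M m) b') * p m (e (j + lv (M m) b')) := by
      intro b'
      rw [hmul, hps, norm_mul, hβ, one_mul, Complex.norm_real, Real.norm_eq_abs,
        abs_of_nonneg (kap_nonneg h2 hn _ _)]
    simp only [hterm] at hiso
    refine hiso.trans (add_le_add ?_ (le_of_eq ?_))
    · rw [← Finset.mul_sum]
      have hmulp := hpmul m (e j) (uu e M m c)
      refine le_trans ?_ (hmulp.trans (mul_le_mul_of_nonneg_left huc (hp0 m _)))
      apply le_of_eq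
      unfold uu
      rfl
    · apply Finset.sum_congr _ fun _ _ => rfl
      ext b'
      rw [Finset.mem_erase, Finset.mem_filter, Finset.mem_filter]
      unfold SameCol
      tauto
  -- the downward induction
  have main : ∀ d m, m ≤ J → J - m = d →
      ∀ k, p m (e k) ≤ Cc n r M m * Real.exp (-(3 / 4) * gam m * tot k) := by
    intro d
    induction d with
    | zero =>
      intro m hm hd
      exact step m hm fun h => absurd h (by omega)
    | succ d ih =>
      intro m hm hd
      exact step m hm fun h => ih (m + 1) (by omega) (by omega)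
  intro m hm
  exact main (J - m) m hm rfl

end K1H26.HF
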